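import Mathlib.Data.Set.Finite.Lattice
import Mathlib.Data.Fintype.Pi
import Mathlib.Data.Fintype.Sets
import Mathlib.Data.Fintype.Prod
import Mathlib.Tactic

/-!
# Directed bisimulations and positivity on finite neighborhood frames

On every finite neighborhood frame a formula is equivalent to a `P`-positive formula if and only
if it is preserved under all `P`-directed bisimulations between models on the frame.
-/

namespace Pool.Agent.Results.MP_5daced_lc.PositivityCriterion

/-- Modal formulas in negation normal form. -/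
inductive Form : Type
  | pos : ℕ → Form
  | neg : ℕ → Form
  | bot : Form
  | top : Form
  | and : Form → Form → Form
  | or : Form → Form → Form
  | dia : Form → Form
  | box : Form → Form

/-- `φ` is `P`-positive: no literal `¬ p` with `p ∈ P` occurs in `φ`. -/
def Positive (P : Set ℕ) : Form → Prop
  | .pos _ => True
  | .neg q => q ∉ P
  | .bot => True
  | .top => True
  | .and a b => Positive P a ∧ Positive P b
  | .or a b => Positive P a ∧ Positive P b
  | .dia a => Positive P a
  | .box a => Positive P a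

/-- A neighborhood frame on `W`: a monotone operator `◇` on subsets of `W`. -/
structure NFrame (W : Type*) where
  /-- the operator `◇` -/
  dia : Set W → Set W
  mono : ∀ X Y : Set W, X ⊆ Y → dia X ⊆ dia Y

variable {W : Type*}

/-- The dual operator `□`. -/
def NFrame.box (F : NFrame W) (X : Set W) : Set W := (F.dia Xᶜ)ᶜ

/-- Truth sets of formulas under the valuation `v`. -/
def ev (F : NFrame W) (v : ℕ → Set W) : Form → Set W
  | .pos q => v q
  | .neg q => (v q)ᶜ
  | .bot => ∅
  | .top => Set.univ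
  | .and a b => ev F v a ∩ ev F v b
  | .or a b => ev F v a ∪ ev F v b
  | .dia a => F.dia (ev F v a)
  | .box a => F.box (ev F v a)

/-- Equivalence of formulas in the frame `F`. -/
def EquivIn (F : NFrame W) (φ ψ : Form) : Prop := ∀ v : ℕ → Set W, ev F v φ = ev F v ψ

/-- Image of a set under a relation. -/
def img {A B : Type*} (Z : A → B → Prop) (X : Set A) : Set B := {b | ∃ a ∈ X, Z a b}

/-- The converse relation. -/
def conv {A B : Type*} (Z : A → B → Prop) : B → A → Prop := fun b a => Z a b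

/-- Bisimulations between neighborhood frames. -/
def IsBisim {W₁ W₂ : Type*} (F₁ : NFrame W₁) (F₂ : NFrame W₂) (Z : W₁ → W₂ → Prop) : Prop :=
  (∀ X₁ : Set W₁, img Z (F₁.dia X₁) ⊆ F₂.dia (img Z X₁)) ∧
    ∀ X₂ : Set W₂, img (conv Z) (F₂.dia X₂) ⊆ F₁.dia (img (conv Z) X₂)

/-- `P`-directed bisimulations between models: a bisimulation of the frames with
`Z(v₁(l)) ⊆ v₂(l)` for every literal `l` outside `{¬ p | p ∈ P}`. -/
def IsDirected {W₁ W₂ : Type*} (P : Set ℕ) (F₁ : NFrame W₁) (F₂ : NFrame W₂)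
    (v₁ : ℕ → Set W₁) (v₂ : ℕ → Set W₂) (Z : W₁ → W₂ → Prop) : Prop :=
  IsBisim F₁ F₂ Z ∧ (∀ q : ℕ, img Z (v₁ q) ⊆ v₂ q) ∧
    ∀ q : ℕ, q ∉ P → img Z (v₁ q)ᶜ ⊆ (v₂ q)ᶜ

/-- `Z` preserves `φ`. -/
def Preserves {W₁ W₂ : Type*} (F₁ : NFrame W₁) (F₂ : NFrame W₂)
    (v₁ : ℕ → Set W₁) (v₂ : ℕ → Set W₂) (Z : W₁ → W₂ → Prop) (φ : Form) : Prop :=
  img Z (ev F₁ v₁ φ) ⊆ ev F₂ v₂ φ

/-! ### Preservation of positive formulas -/

theorem preserves_positive {W₁ W₂ : Type*} {P : Set ℕ} {F₁ : NFrame W₁} {F₂ : NFrame W₂}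
    {v₁ : ℕ → Set W₁} {v₂ : ℕ → Set W₂} {Z : W₁ → W₂ → Prop}
    (h : IsDirected P F₁ F₂ v₁ v₂ Z) : ∀ φ : Form, Positive P φ → Preserves F₁ F₂ v₁ v₂ Z φ := by
  intro φ
  induction φ with
  | pos q => intro _; exact h.2.1 q
  | neg q => intro hq; exact h.2.2 q hq
  | bot => rintro _ y ⟨x, hx, _⟩; exact hx
  | top => rintro _ y _; trivial
  | and a b iha ihb =>
    rintro ⟨ha, hb⟩ y ⟨x, ⟨hx1, hx2⟩, hxy⟩
    exact ⟨iha ha ⟨x, hx1, hxy⟩, ihb hb ⟨x, hx2, hxy⟩⟩
  | or a b iha ihb =>
    rintro ⟨ha, hb⟩ y ⟨x, (hx | hx), hxy⟩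
    · exact Or.inl (iha ha ⟨x, hx, hxy⟩)
    · exact Or.inr (ihb hb ⟨x, hx, hxy⟩)
  | dia a iha =>
    intro ha y hy
    exact F₂.mono _ _ (iha ha) (h.1.1 _ hy)
  | box a iha =>
    rintro ha y ⟨x, hx, hxy⟩ hy
    apply hx
    have h2 := h.1.2 (ev F₂ v₂ a)ᶜ ⟨y, hy, hxy⟩
    refine F₁.mono _ _ ?_ h2
    rintro x' ⟨y', hy', hxy'⟩ hx'
    exact hy' (iha ha ⟨x', hx', hxy'⟩)

/-! ### Finite conjunctions and disjunctions -/

/-- Conjunction of a list. -/
def conj : List Form → Form
  | [] => .top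
  | a :: l => .and a (conj l)

/-- Disjunction of a list. -/
def disj : List Form → Form
  | [] => .bot
  | a :: l => .or a (disj l)

theorem mem_conj (F : NFrame W) (v : ℕ → Set W) (l : List Form) (w : W) :
    w ∈ ev F v (conj l) ↔ ∀ a ∈ l, w ∈ ev F v a := by
  induction l with
  | nil => simp [conj, ev]
  | cons a l ih => simp [conj, ev, ih]

theorem mem_disj (F : NFrame W) (v : ℕ → Set W) (l : List Form) (w : W) :
    w ∈ ev F v (disj l) ↔ ∃ a ∈ l, w ∈ ev F v a := by
  induction l with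
  | nil => simp [disj, ev]
  | cons a l ih => simp [disj, ev, ih]

theorem positive_conj {P : Set ℕ} {l : List Form} (h : ∀ a ∈ l, Positive P a) :
    Positive P (conj l) := by
  induction l with
  | nil => trivial
  | cons a l ih => exact ⟨h a (by simp), ih fun b hb => h b (by simp [hb])⟩

theorem positive_disj {P : Set ℕ} {l : List Form} (h : ∀ a ∈ l, Positive P a) :
    Positive P (disj l) := by
  induction l with
  | nil => trivial
  | cons a l ih => exact ⟨h a (by simp), ih fun b hb => h b (by simp [hb])⟩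

/-- Conjunctions indexed by a finite type. -/
theorem exists_conj {I : Type*} [Finite I] {P : Set ℕ} (f : I → Form)
    (h : ∀ i, Positive P (f i)) :
    ∃ g, Positive P g ∧ ∀ (U : Type _) (F : NFrame U) (v : ℕ → Set U) (w : U),
      w ∈ ev F v g ↔ ∀ i, w ∈ ev F v (f i) := by
  classical
  have := Fintype.ofFinite I
  refine ⟨conj ((Finset.univ : Finset I).toList.map f), positive_conj ?_, ?_⟩
  · intro a ha
    obtain ⟨i, _, rfl⟩ := List.mem_map.mp ha
    exact h i
  · intro U F v w
    rw [mem_conj]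
    simp

/-- Disjunctions indexed by a finite type. -/
theorem exists_disj {I : Type*} [Finite I] {P : Set ℕ} (f : I → Form)
    (h : ∀ i, Positive P (f i)) :
    ∃ g, Positive P g ∧ ∀ (U : Type _) (F : NFrame U) (v : ℕ → Set U) (w : U),
      w ∈ ev F v g ↔ ∃ i, w ∈ ev F v (f i) := by
  classical
  have := Fintype.ofFinite I
  refine ⟨disj ((Finset.univ : Finset I).toList.map f), positive_disj ?_, ?_⟩
  · intro a ha
    obtain ⟨i, _, rfl⟩ := List.mem_map.mp ha
    exact h i
  · intro U F v w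
    rw [mem_disj]
    simp

/-! ### The Hennessy-Milner property for finite models -/

/-- Transfer of all `P`-positive formulas. -/
def PosImp (P : Set ℕ) (F : NFrame W) (v₁ v₂ : ℕ → Set W) (x y : W) : Prop :=
  ∀ α, Positive P α → x ∈ ev F v₁ α → y ∈ ev F v₂ α

theorem separate {P : Set ℕ} [Finite W] {F : NFrame W} {v₁ v₂ : ℕ → Set W} (X Y : Set W)
    (h : ∀ x ∈ X, ∀ y ∈ Y, ¬ PosImp P F v₁ v₂ x y) :
    ∃ α, Positive P α ∧ X ⊆ ev F v₁ α ∧ Y ⊆ (ev F v₂ α)ᶜ := by
  classical
  have h' : ∀ (x : X) (y : Y), ∃ α, Positive P α ∧ x.1 ∈ ev F v₁ α ∧ y.1 ∉ ev F v₂ α := by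
    intro x y
    have := h x x.2 y y.2
    unfold PosImp at this
    push Not at this
    exact this
  choose α hα1 hα2 hα3 using h'
  have h2 := fun x : X => exists_conj (I := Y) (fun y => α x y) (hα1 x)
  choose β hβ1 hβ2 using h2
  obtain ⟨γ, hγ1, hγ2⟩ := exists_disj (I := X) β hβ1
  refine ⟨γ, hγ1, ?_, ?_⟩
  · intro x hx
    rw [hγ2]
    refine ⟨⟨x, hx⟩, ?_⟩
    rw [hβ2]
    exact fun y => hα2 ⟨x, hx⟩ y
  · intro y hy hy'
    rw [hγ2] at hy'
    obtain ⟨x, hx⟩ := hy'
    rw [hβ2] at hx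
    exact hα3 x ⟨y, hy⟩ (hx ⟨y, hy⟩)

theorem posImp_directed (P : Set ℕ) [Finite W] (F : NFrame W) (v₁ v₂ : ℕ → Set W) :
    IsDirected P F F v₁ v₂ (PosImp P F v₁ v₂) := by
  refine ⟨⟨?_, ?_⟩, ?_, ?_⟩
  · rintro X y ⟨x, hx, hxy⟩
    obtain ⟨α, hα, h1, h2⟩ := separate (P := P) (F := F) (v₁ := v₁) (v₂ := v₂) X
      (img (PosImp P F v₁ v₂) X)ᶜ (fun x hx y hy hxy => hy ⟨x, hx, hxy⟩)
    have hd : y ∈ ev F v₂ (.dia α) := hxy (.dia α) hα (F.mono _ _ h1 hx)
    refine F.mono _ _ ?_ hd
    intro z hz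
    by_contra hcon
    exact h2 hcon hz
  · rintro Y x ⟨y, hy, hxy⟩
    by_contra hcon
    obtain ⟨α, hα, h1, h2⟩ := separate (P := P) (F := F) (v₁ := v₁) (v₂ := v₂)
      (img (conv (PosImp P F v₁ v₂)) Y)ᶜ Y (fun x hx y hy hxy => hx ⟨y, hy, hxy⟩)
    have hb : x ∈ ev F v₁ (.box α) := by
      intro hx
      apply hcon
      refine F.mono _ _ ?_ hx
      intro z hz
      by_contra hz'
      exact hz (h1 hz')
    have hb2 : y ∈ ev F v₂ (.box α) := hxy (.box α) hα hb
    exact hb2 (F.mono _ _ h2 hy)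
  · rintro q y ⟨x, hx, hxy⟩
    exact hxy (.pos q) trivial hx
  · rintro q hq y ⟨x, hx, hxy⟩
    exact hxy (.neg q) hq hx

/-! ### Reduction to finitely many variables -/

/-- The variables of a formula. -/
def vars : Form → Finset ℕ
  | .pos q => {q}
  | .neg q => {q}
  | .bot => ∅
  | .top => ∅
  | .and a b => vars a ∪ vars b
  | .or a b => vars a ∪ vars b
  | .dia a => vars a
  | .box a => vars a

/-- Make a valuation empty outside the finite set `V`. -/
def cut (V : Finset ℕ) (v : ℕ → Set W) : ℕ → Set W := fun q => if q ∈ V then v q else ∅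

/-- Substitute `⊥` for the variables outside `V`. -/
def restr (V : Finset ℕ) : Form → Form
  | .pos q => if q ∈ V then .pos q else .bot
  | .neg q => if q ∈ V then .neg q else .top
  | .bot => .bot
  | .top => .top
  | .and a b => .and (restr V a) (restr V b)
  | .or a b => .or (restr V a) (restr V b)
  | .dia a => .dia (restr V a)
  | .box a => .box (restr V a)

theorem positive_restr {P : Set ℕ} (V : Finset ℕ) :
    ∀ φ : Form, Positive P φ → Positive P (restr V φ) := by
  intro φ
  induction φ with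
  | pos q => intro _; unfold restr; split_ifs <;> trivial
  | neg q =>
    intro h; unfold restr; split_ifs
    · exact h
    · trivial
  | bot => intro _; trivial
  | top => intro _; trivial
  | and a b iha ihb => exact fun h => ⟨iha h.1, ihb h.2⟩
  | or a b iha ihb => exact fun h => ⟨iha h.1, ihb h.2⟩
  | dia a iha => exact iha
  | box a iha => exact iha

theorem ev_restr (F : NFrame W) (V : Finset ℕ) (v : ℕ → Set W) :
    ∀ φ : Form, ev F v (restr V φ) = ev F (cut V v) φ := by
  intro φ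
  induction φ with
  | pos q => by_cases h : q ∈ V <;> simp [restr, ev, cut, h]
  | neg q => by_cases h : q ∈ V <;> simp [restr, ev, cut, h]
  | bot => rfl
  | top => rfl
  | and a b iha ihb => simp [restr, ev, iha, ihb]
  | or a b iha ihb => simp [restr, ev, iha, ihb]
  | dia a iha => simp [restr, ev, iha]
  | box a iha => simp [restr, ev, iha]

theorem ev_cut (F : NFrame W) (V : Finset ℕ) (v : ℕ → Set W) :
    ∀ φ : Form, vars φ ⊆ V → ev F (cut V v) φ = ev F v φ := by
  intro φ
  induction φ with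
  | pos q => intro h; simp [ev, cut, h (by simp [vars] : q ∈ vars (.pos q))]
  | neg q => intro h; simp [ev, cut, h (by simp [vars] : q ∈ vars (.neg q))]
  | bot => intro _; rfl
  | top => intro _; rfl
  | and a b iha ihb =>
    intro h
    simp [ev, iha (Finset.union_subset_left h), ihb (Finset.union_subset_right h)]
  | or a b iha ihb =>
    intro h
    simp [ev, iha (Finset.union_subset_left h), ihb (Finset.union_subset_right h)]
  | dia a iha => intro h; simp [ev, iha h]
  | box a iha => intro h; simp [ev, iha h]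

/-- Extend a valuation of the variables in `V` by the empty set. -/
def ext (V : Finset ℕ) (u : V → Set W) : ℕ → Set W :=
  fun q => if h : q ∈ V then u ⟨q, h⟩ else ∅

theorem cut_eq_ext (V : Finset ℕ) (v : ℕ → Set W) : cut V v = ext V (fun q => v q.1) := by
  funext q
  by_cases h : q ∈ V <;> simp [cut, ext, h]

theorem exists_positive {P : Set ℕ} [Finite W] (F : NFrame W) (φ : Form)
    (h : ∀ (v₁ v₂ : ℕ → Set W) (Z : W → W → Prop),
      IsDirected P F F v₁ v₂ Z → Preserves F F v₁ v₂ Z φ) :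
    ∃ ψ, Positive P ψ ∧ EquivIn F φ ψ := by
  classical
  set V := vars φ with hV
  -- pointed models of `φ` and of its negation, up to irrelevant variables
  let I := {z : (V → Set W) × W // z.2 ∈ ev F (ext V z.1) φ}
  let J := {z : (V → Set W) × W // z.2 ∉ ev F (ext V z.1) φ}
  have hfin : Finite ((V → Set W) × W) := inferInstance
  have hI : Finite I := Subtype.finite
  have hJ : Finite J := Subtype.finite
  have hsep : ∀ (i : I) (j : J), ∃ α, Positive P α ∧ i.1.2 ∈ ev F (ext V i.1.1) α ∧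
      j.1.2 ∉ ev F (ext V j.1.1) α := by
    intro i j
    by_contra hcon
    push Not at hcon
    have hZ : PosImp P F (ext V i.1.1) (ext V j.1.1) i.1.2 j.1.2 := hcon
    exact j.2 (h _ _ _ (posImp_directed P F (ext V i.1.1) (ext V j.1.1))
      ⟨i.1.2, i.2, hZ⟩)
  choose α hα1 hα2 hα3 using hsep
  have h2 := fun i : I => exists_conj (I := J) (fun j => restr V (α i j))
    (fun j => positive_restr V _ (hα1 i j))
  choose β hβ1 hβ2 using h2
  obtain ⟨ψ, hψ1, hψ2⟩ := exists_disj (I := I) β hβ1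
  refine ⟨ψ, hψ1, fun v => ?_⟩
  ext w
  rw [hψ2]
  constructor
  · intro hw
    have hw' : w ∈ ev F (ext V fun q => v q.1) φ := by
      rw [← cut_eq_ext, ev_cut F V v φ hV.symm.subset.ge.le]
      exact hw
    refine ⟨⟨(fun q => v q.1, w), hw'⟩, ?_⟩
    rw [hβ2]
    intro j
    rw [ev_restr, cut_eq_ext]
    exact hα2 ⟨(fun q => v q.1, w), hw'⟩ j
  · rintro ⟨i, hi⟩
    rw [hβ2] at hi
    by_contra hw
    have hw' : w ∉ ev F (ext V fun q => v q.1) φ := by
      rw [← cut_eq_ext, ev_cut F V v φ hV.symm.subset.ge.le]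
      exact hw
    have h3 := hi ⟨(fun q => v q.1, w), hw'⟩
    rw [ev_restr, cut_eq_ext] at h3
    exact hα3 i ⟨(fun q => v q.1, w), hw'⟩ h3

/-- **Positive answer to Q1 of MP_5daced_lc.**  For every finite neighborhood frame `F`, every
set `P` of variables (in particular the set of entries of a tuple) and every formula `φ`: `φ` is
equivalent in `F` to some `P`-positive formula if and only if `φ` is preserved under every
`P`-directed bisimulation between any two models on `F`. -/
theorem result {W : Type*} [Finite W] (F : NFrame W) (P : Set ℕ) (φ : Form) :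
    (∃ ψ, Positive P ψ ∧ EquivIn F φ ψ) ↔
      ∀ (v₁ v₂ : ℕ → Set W) (Z : W → W → Prop),
        IsDirected P F F v₁ v₂ Z → Preserves F F v₁ v₂ Z φ := by
  constructor
  · rintro ⟨ψ, hψ, he⟩ v₁ v₂ Z hZ
    have := preserves_positive hZ ψ hψ
    unfold Preserves at this ⊢
    rw [he v₁, he v₂]
    exact this
  · exact exists_positive F φ

end Pool.Agent.Results.MP_5daced_lc.PositivityCriterion
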